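import Mathlib
import Pool.Agent.D0H99.PC.Pure
import Pool.Agent.D0H99.PC.Kex
import Pool.Agent.D0H99.JL.Lim
import Pool.Agent.D0H45.L0.Fin
import Pool.Agent.Y461.CX.C3

/-!
# The rank part of the Birch and Swinnerton-Dyer conjecture for `y² + y = x³` over cubic extensions

`E` is the curve `y² + y = x³`.

`K = ℚ(√-3)`. `D` runs through all the cube-free elements of `𝓞 K` with a prime divisor
different from `√-3`; the fields `F = K(∛D)` are all the cyclic cubic extensions of `K` that are
ramified outside of `3` (each one for finitely many `D`).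
* `L(E / F, s)` is continued to an entire function for all the `F`.
* If the two cubic twists `E_D`, `E_{D²}` have finitely many points over `K` and trivial `3`-primary
  Tate-Shafarevich groups, then `L(E / F, 1) ≠ 0`, the group `E(F)` is finite, and `3` kills the
  `3`-primary part of `Ш(E / F)`: the rank and the order of vanishing are `0`.
* The proportion of the `D` with this property, ordered by the norm, tends exactly to
  `103 / 117 ∏_{i ≥ 0} (1 - 3^{-(2 i + 1)}) = 0.5625...`: this is the joint law of the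
  `3`-descents on the two twists (single law: `∏_{i ≥ 0} (1 - 3^{-(2 i + 1)}) = 0.639...`; the two
  twists are neither independent nor equivalent).

The central values and the descents come from projects CF, FF, L3, L9 and L0 (see the headers of
`Pool/Agent/D0H69/L0F/End.lean`, `Pool/Agent/D0H10/KH/End.lean` and of the files they import), the
passage to the cubic fields from projects CTE and CTP (see `Pool/Agent/Y696/CTE`,
`Pool/Agent/Y696/CTP`, `Pool/Agent/R419/CE`).
-/

set_option autoImplicit false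

open scoped Classical

namespace Pool.Agent.Results.MP_ae0bd0_nt.CubicExtensionFields

open NumberField WeierstrassCurve
open Pool.Agent.TH841.NF.D (Sha)

/-- The curve `E_D : y² + D y = x³`; `E = E_1`. -/
def curve {F : Type} [Field F] (D : F) : WeierstrassCurve F := ⟨0, 0, D, 0, 0⟩

/-- There is an entire function equal to `L(E / F, s)` for `Re s > 3 / 2`, where the `L`-series
converges absolutely. -/
def HasEntireL (F : Type) [Field F] [NumberField F] : Prop :=
  ∃ L : ℂ → ℂ, Differentiable ℂ L ∧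
    ∀ s : ℂ, 3 / 2 < s.re →
      LSeriesSummable ((fun n : ℤ => (n : ℂ)) ∘ (curve (1 : F)).LFunction) s ∧
        L s = (curve (1 : F)).LSeries s

/-- There is an entire function equal to `L(E / F, s)` for `Re s > 3 / 2`, its value at `1` is not
zero, `E(F)` is finite (so both the analytic rank and the rank are `0`), and every element of the
`3`-primary part of `Ш(E / F)` is killed by `3`. -/
def RankZero (F : Type) [Field F] [NumberField F] : Prop :=
  (∃ L : ℂ → ℂ, Differentiable ℂ L ∧
    (∀ s : ℂ, 3 / 2 < s.re →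
      LSeriesSummable ((fun n : ℤ => (n : ℂ)) ∘ (curve (1 : F)).LFunction) s ∧
        L s = (curve (1 : F)).LSeries s) ∧ L 1 ≠ 0) ∧
  Finite (curve (1 : F)).toAffine.Point ∧
  ∀ (n : ℕ) (x : Sha (curve (1 : F))), 3 ^ n • x = 0 → 3 • x = 0

section
variable {K : Type} [Field K] [NumberField K]

/-- `D` is cube-free and does not divide `3`. -/
def InFamily (D : 𝓞 K) : Prop := ¬ D ∣ 3 ∧ ∀ x : 𝓞 K, x ^ 3 ∣ D → IsUnit x

/-- `E_D(K)` is finite and the `3`-primary part of `Ш(E_D / K)` is trivial. -/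
def FiniteAndTrivial (D : 𝓞 K) : Prop :=
  Finite (curve (D : K)).toAffine.Point ∧ ∀ (n : ℕ) (x : Sha (curve (D : K))), 3 ^ n • x = 0 → x = 0

/-- both for `D` and for `D²` -/
def BothTrivial (D : 𝓞 K) : Prop := FiniteAndTrivial D ∧ FiniteAndTrivial (D ^ 2)

end

lemma law_aux {F : Type} [Field F] [NumberField F] {P : Prop}
    (h : Pool.Agent.Y696.CTE.LawE F P) : HasEntireL F ∧ (P → RankZero F) := by
  obtain ⟨L, q1, q2, q3⟩ := h
  refine ⟨⟨L, q1, q2⟩, fun hP => ?_⟩
  obtain ⟨r1, r2, r3⟩ := q3 hP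
  exact ⟨⟨L, q1, q2, r1⟩, r2, r3⟩

theorem result (K : Type) [Field K] [NumberField K] [IsCyclotomicExtension {3} ℚ K] :
    (∃ c : ℝ, 0 < c ∧ ∃ X₀ : ℕ, ∀ X : ℕ, X₀ ≤ X →
      c * X ≤ ({D : 𝓞 K | Algebra.norm ℤ D ≤ X ∧ InFamily D}.ncard : ℝ)) ∧
    (∀ D : 𝓞 K, InFamily D →
      (∃ (F : Type) (_ : Field F) (_ : NumberField F) (_ : Algebra K F) (θ : F),
        Module.finrank K F = 3 ∧ θ ^ 3 = algebraMap K F (D : K)) ∧
      ∀ (F : Type) [Field F] [NumberField F] [Algebra K F] (θ : F), Module.finrank K F = 3 →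
        θ ^ 3 = algebraMap K F (D : K) → HasEntireL F ∧ (BothTrivial D → RankZero F)) ∧
    Filter.Tendsto (fun X : ℕ =>
      ({D : 𝓞 K | Algebra.norm ℤ D ≤ X ∧ InFamily D ∧ BothTrivial D}.ncard : ℝ) /
        ({D : 𝓞 K | Algebra.norm ℤ D ≤ X ∧ InFamily D}.ncard : ℝ)) Filter.atTop
      (nhds (103 / 117 * ∏' i : ℕ, (1 - (1 / 3 : ℝ) ^ (2 * i + 1)))) ∧
    (0.5625 : ℝ) < 103 / 117 * ∏' i : ℕ, (1 - (1 / 3 : ℝ) ^ (2 * i + 1)) := by
  have h := Pool.Agent.D0H69.L0F.finalAll K
  refine ⟨h.1, fun D hD => ⟨?_, fun F _ _ _ θ hdeg hθ => ?_⟩, Pool.Agent.D0H99.JL.limK K, ?_⟩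
  · exact Pool.Agent.D0H99.PC.kum_ex (fun hu => hD.1 hu.dvd) hD.2
  · obtain ⟨⟨j, -⟩, -⟩ := Pool.Agent.Y455.CTK.jex K
    exact law_aux (Pool.Agent.D0H99.PC.lawAll j hD hdeg θ hθ)
  · have h639 := h.2.2.2.2.2
    linarith

end Pool.Agent.Results.MP_ae0bd0_nt.CubicExtensionFields
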