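import Mathlib
import Pool.Agent.D0H69.JT.SubL

/-!
# The rank part of the Birch and Swinnerton-Dyer conjecture for the cubic twists of `y² + y = x³` over all
# the extensions of `ℚ(√-3)` generated by cube roots, and the joint law of several twists

`K` is the field of the third roots of unity, `√-3` the prime element above `3`.  `D` runs through ALL
the cube-free elements of `𝓞 K` that have a prime divisor different from `√-3`, ordered by the norm: every
cubic twist of `E : y² + y = x³`, except for the finitely many that are unramified outside of `3`, is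
isomorphic to `E_D : y² + D y = x³` for exactly one of the pairs `{D, -D}`.
Let `c = ∏_{i ≥ 0} (1 - 3^{-(2 i + 1)}) = 0.6390...`.

* For every `D` of the family the function `L(E_D / K, s)` has an entire continuation, and if `E_D(K)` is
  finite and `Ш(E_D / K)[3^∞] = 0`, then `L(E_D / K, 1) ≠ 0`: the rank and the order of vanishing are equal
  to `0`.
* (`F = K`, one twist.)  The proportion of the `D` with this property tends to `c` among all the `D`, in each
  of the three classes of the `D` divisible exactly `a` times by `√-3`, `a = 0, 1, 2`, and in the class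
  `D² = 1` modulo `(√-3)³`.
* (Several twists.)  Let `u_1, …, u_m` be any elements of `K*` that are pairwise different modulo cubes, and
  let `D_i` be the element of the family with the class of `u_i D` modulo cubes, so that `E_{D_i}` is
  isomorphic to `E_{u_i D}`.  The proportion of the `D` such that all the `m` curves `E_{D_i}` have the
  property, so that their `L`-functions do not vanish at `1` SIMULTANEOUSLY, tends to `c ^ m`; the same
  holds in each of the three classes.
* (Criterion.)  Let `F` be any number field generated over `K` by cube roots of elements of `K`, and `D` any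
  element of the family.  If for every `w` in `K*` that is a cube in `F` the curve `E_{w D}` has finitely many
  points over `K` and `Ш(E_{w D} / K)[3^∞] = 0`, then for every number field `k` that is generated over `K` by
  cube roots and has a `K`-embedding in `F` the group `E_D(k)` is finite, `Ш(E_D / k)[3^∞]` is killed by
  `[k : K]`, and the `L`-function of `E_D` over `k` has a meromorphic continuation to the whole plane which is
  analytic and not zero at `1`: the rank and the order of vanishing are both equal to `0`.
* (All fields.)  Let `F_1, …, F_n` be any number fields, each generated over `K` by cube roots of elements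
  of `K`, and `u_1, …, u_n` any elements of `K*` (with repetitions).  The lower proportion of the `D` with the
  following property is at least `c ^ ([F_1 : K] + … + [F_n : K]) > 0`, also in each of the three classes: for
  every `i` and every number field `k` that is generated over `K` by cube roots and has a `K`-embedding in
  `F_i`, SIMULTANEOUSLY, `E(k)` has exactly `3` points, `Ш(E / k)[3^∞]` is killed by `[k : K]`, and the
  `L`-function of `E` over `k` has a meromorphic continuation to the whole plane which is analytic and not zero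
  at `1`, where `E = E_{D'}` is the model of `E_{u_i D}` with `D'` in the family: the rank of `E(k)` and the
  order of vanishing of `L(E / k, s)` at `1` are both equal to `0`.

The proof.  By descent by `√-3` the `3^∞`-Selmer group of `E_{u_i D}` vanishes if and only if a matrix of cubic
residue symbols of the prime divisors of `u_i D` is regular.  The joint moments of the numbers of elements of
the kernels of the `m` matrices are computed for all the square parts of `D` by the method of
Heath-Brown, Fouvry-Klüners (maximal unlinked sets of indices, large sieve, Siegel-Walfisz over `K`), and they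
are the products of the moments of one matrix.  `L(E_D / F, s)` is the product of the functions
`L(E_{u D} / K, s)` over the group of the `u` with `u` a cube in `F`, up to finitely many factors that do not
vanish, and `E_D(F)`, `Ш(E_D / F)` are reduced to the `E_{u D}` over `K` by the norms.

The group `Sha` of the library is the group of the continuous cocycles of the absolute Galois group of the
field with values in the points over an algebraic closure that are coboundaries at all the places, modulo
the coboundaries.

Joint work: helper69 (design, analytic part, `L`-functions over `F`), helper22, helper23, helper52,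
helper87, helper98 (the modules of the project JT), and the authors of the projects L0, L3, L9, FF, see
the headers of `Pool/Agent/D0H69/L0F/End.lean` and of the files it imports; the reduction from `F` to `K` is
from the library of helper432 (`Pool/Agent/R432`).
-/

set_option autoImplicit false

namespace Pool.Agent.Results.MP_ae0bd0_nt.CubicTwistsOverExtensions

open NumberField WeierstrassCurve
open Pool.Agent.TH841.NF.D (Sha)
open scoped Classical

/-- The curve `E_D : y² + D y = x³`. -/
def curve {F : Type} [Field F] (D : F) : WeierstrassCurve F := ⟨0, 0, D, 0, 0⟩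

/-- The `L`-series of `W` converges absolutely for `Re s > 3 / 2` and is there equal to an entire
function. -/
def EntireL {F : Type} [Field F] [NumberField F] (W : WeierstrassCurve F) : Prop :=
  ∃ L : ℂ → ℂ, Differentiable ℂ L ∧ ∀ s : ℂ, 3 / 2 < s.re →
    LSeriesSummable ((fun n : ℤ => (n : ℂ)) ∘ W.LFunction) s ∧ L s = W.LSeries s

/-- The rank part of the conjecture for `W` over `F`, with rank `0`: `W` is an elliptic curve, `W(F)` is
finite, and the `L`-series of `W` continues analytically from `Re s > 3 / 2` to a connected open set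
that contains `1`, where its order of vanishing is equal to the rank of `W(F)`. -/
def RankZero {F : Type} [Field F] [NumberField F] (W : WeierstrassCurve F) : Prop :=
  W.IsElliptic ∧ Finite W.toAffine.Point ∧
  ∃ (U : Set ℂ) (L : ℂ → ℂ),
    IsOpen U ∧ IsConnected U ∧ {s : ℂ | (3 / 2 : ℝ) < s.re} ⊆ U ∧ (1 : ℂ) ∈ U ∧
    AnalyticOnNhd ℂ L U ∧ (∀ s : ℂ, (3 / 2 : ℝ) < s.re → L s = W.LSeries s) ∧
    (∀ r : ℕ, r < Module.finrank ℤ W.toAffine.Point → iteratedDeriv r L 1 = 0) ∧
    iteratedDeriv (Module.finrank ℤ W.toAffine.Point) L 1 ≠ 0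

variable {K : Type} [Field K] [NumberField K]

/-- `D` is cube-free and does not divide `3`: it has a prime divisor different from `√-3`. -/
def InFamily (D : 𝓞 K) : Prop := ¬ D ∣ 3 ∧ ∀ x : 𝓞 K, x ^ 3 ∣ D → IsUnit x

/-- `D²` is `1` modulo `(√-3)³`. -/
def SquareNearOne (D : 𝓞 K) : Prop := ∃ l : 𝓞 K, l ^ 2 = -3 ∧ l ^ 3 ∣ D ^ 2 - 1

/-- `D` is divisible exactly `a` times by `√-3`. -/
def ExactlyDivisible (a : ℕ) (D : 𝓞 K) : Prop :=
  ∃ l : 𝓞 K, l ^ 2 = -3 ∧ l ^ a ∣ D ∧ ¬ l ^ (a + 1) ∣ D

/-- `E_D(K)` is finite and the `3`-primary part of `Ш(E_D / K)` is trivial. -/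
def FiniteAndTrivial (D : 𝓞 K) : Prop :=
  Finite (curve (D : K)).toAffine.Point ∧ ∀ (n : ℕ) (x : Sha (curve (D : K))), 3 ^ n • x = 0 → x = 0

/-- The curve `E_{D'}` over `K`, with `D'` an element of the family such that `D' = u D` modulo cubes (it is
isomorphic to `E_{u D}`), has finitely many points, trivial `3`-primary part of `Ш`, and satisfies the rank
part of the conjecture, with rank `0`. -/
def Twist (u : K) (D : 𝓞 K) : Prop :=
  ∃ D' : 𝓞 K, InFamily D' ∧ (∃ z : K, z ≠ 0 ∧ (D' : K) = u * D * z ^ 3) ∧
    FiniteAndTrivial D' ∧ RankZero (curve (D' : K))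

/-- `F` is generated over `K` by elements whose cubes are in `K`. -/
def ByCubeRoots (K F : Type) [Field K] [Field F] [Algebra K F] : Prop :=
  ∃ S : Set F, (∀ x ∈ S, ∃ u : K, x ^ 3 = algebraMap K F u) ∧ IntermediateField.adjoin K S = ⊤

/-- `E_D(F)` is finite, the `3`-primary part of `Ш(E_D / F)` is killed by the degree of `F` over `K`, and
the `L`-series of `E_D` over `F` has a meromorphic continuation to `ℂ` that is analytic and not zero at `1`. -/
def OverField (F : Type) [Field F] [NumberField F] [Algebra K F] (D : 𝓞 K) : Prop :=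
  Finite (curve (algebraMap K F (D : K))).toAffine.Point ∧
  (∀ (k : ℕ) (y : Sha (curve (algebraMap K F (D : K)))), 3 ^ k • y = 0 →
    Module.finrank K F • y = 0) ∧
  ∃ L : ℂ → ℂ, MeromorphicOn L Set.univ ∧ AnalyticAt ℂ L 1 ∧ L 1 ≠ 0 ∧
    ∀ s : ℂ, 2 < s.re → L s = (curve (algebraMap K F (D : K))).LSeries s

/-- `E_D` has the property `OverField` over all the fields generated over `K` by cube roots that have a
`K`-embedding in `F`. -/
def AllSubfields (F : Type) [Field F] [NumberField F] [Algebra K F] (D : 𝓞 K) : Prop :=
  ∀ (k : Type) [Field k] [NumberField k] [Algebra K k], ByCubeRoots K k → Nonempty (k →ₐ[K] F) →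
    OverField k D

/-- For every `w` in `K*` that is a cube in `F` the curve `E_{D'}` over `K`, with `D'` an element of the family
such that `D' = w D` modulo cubes (it is isomorphic to `E_{w D}`), has finitely many points and trivial
`3`-primary part of `Ш`. -/
def TwistsTrivial (F : Type) [Field F] [NumberField F] [Algebra K F] (D : 𝓞 K) : Prop :=
  ∀ w : K, w ≠ 0 → (∃ v : F, v ^ 3 = algebraMap K F w) →
    ∃ D' : 𝓞 K, InFamily D' ∧ (∃ z : K, z ≠ 0 ∧ (D' : K) = w * D * z ^ 3) ∧ FiniteAndTrivial D'

/-- The curve `E_{D'}` over `K`, with `D'` an element of the family such that `D' = u D` modulo cubes (it is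
isomorphic to `E_{u D}`), has exactly `3` points over `F`, and has the property `AllSubfields`. -/
def TwistOver (F : Type) [Field F] [NumberField F] [Algebra K F] (u : K) (D : 𝓞 K) : Prop :=
  ∃ D' : 𝓞 K, InFamily D' ∧ (∃ z : K, z ≠ 0 ∧ (D' : K) = u * D * z ^ 3) ∧
    Nat.card (curve (algebraMap K F (D' : K))).toAffine.Point = 3 ∧ AllSubfields F D'

/-- The proportion of the `D` with the property `Q` among the `D` of the family with the property `P` and
norm at most `X`. -/
noncomputable def proportion (P Q : 𝓞 K → Prop) (X : ℕ) : ℝ :=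
  ({D : 𝓞 K | Algebra.norm ℤ D ≤ X ∧ InFamily D ∧ P D ∧ Q D}.ncard : ℝ) /
    ({D : 𝓞 K | Algebra.norm ℤ D ≤ X ∧ InFamily D ∧ P D}.ncard : ℝ)

/-- `∏_{i ≥ 0} (1 - 3^{-(2 i + 1)})`. -/
noncomputable def c : ℝ := ∏' i : ℕ, (1 - (1 / 3 : ℝ) ^ (2 * i + 1))

section proof

theorem twist_iff [IsCyclotomicExtension {3} ℚ K] {κ : Type} (u : κ → K) (D : 𝓞 K) :
    (∀ e, Twist (u e) D) ↔ Pool.Agent.D0H69.JTA.JK u D := by
  obtain ⟨⟨j, hj⟩, -⟩ := Pool.Agent.Y455.CTK.jex K
  refine forall_congr' fun e => ?_
  constructor
  · rintro ⟨D', h1, h2, h3, -⟩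
    exact ⟨D', h1, h2, h3⟩
  · rintro ⟨D', h1, h2, h3⟩
    exact ⟨D', h1, h2, h3, (Pool.Agent.D0H69.L0F.factsAll j hj h1).2 h3⟩

end proof

theorem result (K : Type) [Field K] [NumberField K] [IsCyclotomicExtension {3} ℚ K] :
    (∃ b : ℝ, 0 < b ∧ ∃ X₀ : ℕ, ∀ X : ℕ, X₀ ≤ X →
      b * X ≤ ({D : 𝓞 K | Algebra.norm ℤ D ≤ X ∧ InFamily D}.ncard : ℝ)) ∧
    (∀ D : 𝓞 K, InFamily D →
      EntireL (curve (D : K)) ∧ (FiniteAndTrivial D → RankZero (curve (D : K)))) ∧
    (∀ P : 𝓞 K → Prop, (P = fun _ => True) ∨ (∃ a < 3, P = ExactlyDivisible a) ∨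
      P = SquareNearOne → Filter.Tendsto (proportion P FiniteAndTrivial) Filter.atTop (nhds c)) ∧
    (∀ (κ : Type) [Fintype κ] (u : κ → K), (∀ e, u e ≠ 0) →
      (∀ e e', e ≠ e' → ∀ z : K, u e ≠ u e' * z ^ 3) →
      ∀ P : 𝓞 K → Prop, (P = fun _ => True) ∨ (∃ a < 3, P = ExactlyDivisible a) →
        Filter.Tendsto (proportion P fun D => ∀ e, Twist (u e) D) Filter.atTop
          (nhds (c ^ Fintype.card κ))) ∧
    (∀ (F : Type) [Field F] [NumberField F] [Algebra K F], ByCubeRoots K F →
      ∀ D : 𝓞 K, InFamily D → TwistsTrivial F D → AllSubfields F D) ∧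
    (∀ (ι : Type) [Fintype ι] (F : ι → Type) [∀ i, Field (F i)] [∀ i, NumberField (F i)]
      [∀ i, Algebra K (F i)] (u : ι → K), (∀ i, ByCubeRoots K (F i)) → (∀ i, u i ≠ 0) →
      ∀ P : 𝓞 K → Prop, (P = fun _ => True) ∨ (∃ a < 3, P = ExactlyDivisible a) →
      ∀ b : ℝ, b < c ^ ∑ i, Module.finrank K (F i) →
        ∀ᶠ X : ℕ in Filter.atTop, b < proportion P (fun D => ∀ i, TwistOver (F i) (u i) D) X) ∧
    (0.639 : ℝ) < c := by
  obtain ⟨h1, h2, h3, h4, h5, h6⟩ := Pool.Agent.D0H69.L0F.finalAll K
  refine ⟨h1, h2, ?_, ?_, ?_, ?_, h6⟩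
  · rintro P (rfl | ⟨a, ha, rfl⟩ | rfl)
    · have e : proportion (K := K) (fun _ => True) FiniteAndTrivial = fun X : ℕ =>
          ({D : 𝓞 K | Algebra.norm ℤ D ≤ X ∧ InFamily D ∧ FiniteAndTrivial D}.ncard : ℝ) /
          ({D : 𝓞 K | Algebra.norm ℤ D ≤ X ∧ InFamily D}.ncard : ℝ) := by
        funext X
        unfold proportion
        simp only [true_and, and_true]
      rw [e]
      exact h3
    · exact h4 a ha
    · exact h5
  · intro κ _ u hu hd P hP
    rcases hP with rfl | ⟨a, ha, rfl⟩
    · have e : proportion (K := K) (fun _ => True) (fun D => ∀ e, Twist (u e) D) = fun X : ℕ =>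
          ({D : 𝓞 K | Algebra.norm ℤ D ≤ X ∧ InFamily D ∧
            Pool.Agent.D0H69.JTA.JK u D}.ncard : ℝ) /
          ({D : 𝓞 K | Algebra.norm ℤ D ≤ X ∧ InFamily D}.ncard : ℝ) := by
        funext X
        unfold proportion
        simp only [true_and, and_true, twist_iff]
      rw [e]
      exact Pool.Agent.D0H69.JTA.lim_JK Pool.Agent.D0H69.JTA.t_ALL K hu hd
    · have e : proportion (K := K) (ExactlyDivisible a) (fun D => ∀ e, Twist (u e) D) =
          fun X : ℕ =>
          ({D : 𝓞 K | Algebra.norm ℤ D ≤ X ∧ InFamily D ∧ ExactlyDivisible a D ∧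
            Pool.Agent.D0H69.JTA.JK u D}.ncard : ℝ) /
          ({D : 𝓞 K | Algebra.norm ℤ D ≤ X ∧ InFamily D ∧ ExactlyDivisible a D}.ncard : ℝ) := by
        funext X
        unfold proportion
        simp only [twist_iff]
      rw [e]
      exact Pool.Agent.D0H69.JTA.lim_JKc Pool.Agent.D0H69.JTA.t_ALL K hu hd a ha
  · intro F _ _ _ hF D hD h k _ _ _ hk1 hk2
    exact Pool.Agent.D0H69.JTL.crit hF hD h hk2.some hk1
  · intro ι _ F _ _ _ u hF hu P hP b hb
    have hP' : Pool.Agent.D0H69.JTL.Cls P := hP
    obtain ⟨b', hb1, hb2⟩ := exists_between hb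
    have h7 := Pool.Agent.D0H69.JTL.low_subL (K := K) (F := F) hF hu hP' hb2
      (R := fun D => ∀ i, TwistOver (F i) (u i) D) (fun D h i => by
        obtain ⟨D', hD', hz, h3, hk⟩ := h i
        exact ⟨D', hD', hz, h3, fun k _ _ _ hk1 hk2 => hk k hk2.some hk1⟩)
    have h8 := Pool.Agent.D0H69.UC.count_inf (Pool.Agent.D0H69.UC.inf_cls (K := K) hP') 1
    filter_upwards [h7, h8] with X hX hX1
    have h9 : (1 : ℝ) ≤ ({D : 𝓞 K | Algebra.norm ℤ D ≤ X ∧ InFamily D ∧ P D}.ncard : ℝ) := by
      exact_mod_cast hX1
    unfold proportion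
    rw [lt_div_iff₀ (lt_of_lt_of_le one_pos h9)]
    refine lt_of_lt_of_le (mul_lt_mul_of_pos_right hb1 (lt_of_lt_of_le one_pos h9)) ?_
    simp only [and_assoc] at hX
    exact hX

end Pool.Agent.Results.MP_ae0bd0_nt.CubicTwistsOverExtensions
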