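import Pool.Agent.D0H40.CX.NFInst
import Pool.Agent.D0H40.CX.Mero3

/-!
# Finite products over the primes of a number field and the continuation of `L(E/K, s)`

`K` is any number field, `E : y² = x³ + a x + b`, `a, b ∈ 𝓞 K`, is an elliptic curve.  For number fields the
existence of the continuation of `L(E/K, s)` to `s = 1` is a part of the conjecture of Birch and
Swinnerton-Dyer.  Nothing is assumed here about the `L`-function: it is only defined, as a convergent Euler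
product over the primes `v ∤ 6 (4a³ + 27b²)`, for `Re s > 3/2`.  (The Euler factors at the other primes have no
zeros and no poles for `Re s > 1/2`.)  For real numbers `k > 1` and `τ` consider the finite sums

`W_{k,τ}(X) = ∑_{q_v ≤ X} exp (-(1 + iτ) (log q_v)^k / (log X)^(k-1)) log (N_v / q_v)`

and the finite products `P_k(X) = exp W_{k,0}(X) = ∏_{q_v ≤ X} (N_v / q_v) ^ exp (-(log q_v)^k / (log X)^(k-1))`,
`N_v = #E(k_v)`.  Let `S_{k,τ}` be the sector `|arg (s-1) - arctan τ / k| < (π/2)(1 - 1/k)`.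

* `|W_{k,τ}(X)| ≤ X^(η + o(1))` if and only if the `L`-function has an analytic continuation without zeros to
  the part of `S_{k,τ}` where the explicit function `rate` is larger than `η`.  For `η = 0` this is `S_{k,τ}`.
* `|log P_k(X)| ≤ X^(o(1))` for all `k > 1` if and only if the `L`-function has an analytic continuation without
  zeros to `Re s > 1`; for a single `k > 1` the same is true with `W_{k,τ}` for all `τ`.
* If `W_{k,τ}(X) = (1 - 1/k) ρ log log X + O(1)` for a complex number `ρ` then on `S_{k,τ}` there is a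
  continuation `exp ℓ` with `ℓ(s) = ρ log |s - 1| + O(1)` at `s = 1` (order `ρ`).  Conversely a continuation with
  this property to a sector implies the law for all `(k, τ)` for which the closure of `S_{k,τ}` is in the sector.
  Hence the law holds for some `(k, τ)` if and only if there is such a continuation to some sector in the
  half-plane, and it holds for all `(k, 0)`, or for one `k` and all `τ`, if and only if there is such a
  continuation to the whole half-plane `Re s > 1`.  The same with `o(log log X)` and `o(log |s - 1|)`.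
* `P_k(X)` is between constant multiples of `(log X)^((1-1/k) ρ)` for all `k > 1` if and only if the `L`-function
  has a continuation of order `ρ` without zeros to `Re s > 1`; if this holds for `k` then for all smaller
  exponents.
* If the `L`-function has a meromorphic continuation `F` to `Re s > 1` and to `s = 1`, then
  `W_{k,τ}(X) / log log X → (1 - 1/k) ρ` for some `(k, τ)` if and only if `ρ = ord_{s=1} F`.  In particular the
  rank form of the conjecture for `E/K` is then equivalent to: for some `(k, τ)` this quotient tends to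
  `(1 - 1/k) rank E(K)`.
-/

set_option autoImplicit false

namespace Pool.Agent.Results.MP_ae0bd0_nt.ProductsAndContinuation

open Filter Topology Classical NumberField IsDedekindDomain

variable {K : Type} [Field K] [NumberField K]

/-- `q_v`: the norm of the prime `v` of `K`. -/
noncomputable def primeNorm (v : HeightOneSpectrum (𝓞 K)) : ℕ := Ideal.absNorm v.asIdeal

/-- `N_v`: the number of points of `y² = x³ + a x + b` modulo `v`, with the point at infinity. -/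
noncomputable def numPoints (a b : 𝓞 K) (v : HeightOneSpectrum (𝓞 K)) : ℕ :=
  Nat.card {z : (𝓞 K ⧸ v.asIdeal) × (𝓞 K ⧸ v.asIdeal) //
    z.2 ^ 2 = z.1 ^ 3 + Ideal.Quotient.mk v.asIdeal a * z.1 + Ideal.Quotient.mk v.asIdeal b} + 1

/-- `v` does not divide `6 (4 a³ + 27 b²)`. -/
def Good (a b : 𝓞 K) (v : HeightOneSpectrum (𝓞 K)) : Prop :=
  6 * (4 * a ^ 3 + 27 * b ^ 2) ∉ v.asIdeal

/-- there are finitely many good primes of norm at most `X` -/
theorem good_finite (a b : 𝓞 K) (X : ℝ) :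
    {v : HeightOneSpectrum (𝓞 K) | Good a b v ∧ (primeNorm v : ℝ) ≤ X}.Finite := by
  have h := (Pool.Agent.D0H40.CX.ns_V a b).le_finite X
  have h2 := h.image (fun v : Pool.Agent.D0H40.CX.PV a b => v.1)
  refine h2.subset fun v hv => ?_
  exact ⟨⟨v, hv.1⟩, hv.2, rfl⟩

/-- the primes `v` of `K` that do not divide `6 (4 a³ + 27 b²)` with `q_v ≤ X` -/
noncomputable def goodPrimes (a b : 𝓞 K) (X : ℝ) : Finset (HeightOneSpectrum (𝓞 K)) :=
  (good_finite a b X).toFinset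

/-- `W_{k,τ}(X) = ∑_{q_v ≤ X, v good} exp (-(1 + iτ) (log q_v)^k / (log X)^(k-1)) log (N_v / q_v)` -/
noncomputable def wSum (a b : 𝓞 K) (k τ X : ℝ) : ℂ :=
  ∑ v ∈ goodPrimes a b X,
    Complex.exp (-((1 + τ * Complex.I) *
      ((Real.log (primeNorm v)) ^ k / (Real.log X) ^ (k - 1) : ℝ))) *
      (Real.log ((numPoints a b v : ℝ) / primeNorm v) : ℝ)

/-- `P_k(X) = ∏_{q_v ≤ X, v good} (N_v / q_v) ^ exp (-(log q_v)^k / (log X)^(k-1))` -/
noncomputable def wProd (a b : 𝓞 K) (k X : ℝ) : ℝ :=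
  ∏ v ∈ goodPrimes a b X,
    ((numPoints a b v : ℝ) / primeNorm v) ^
      Real.exp (-((Real.log (primeNorm v)) ^ k / (Real.log X) ^ (k - 1)))

/-- the local factor `(1 - a_v q_v^{-s} + q_v^{1-2s})⁻¹`, `a_v = q_v + 1 - N_v`, of a good prime, and `1` at
the other primes -/
noncomputable def localFactor (a b : 𝓞 K) (v : HeightOneSpectrum (𝓞 K)) (s : ℂ) : ℂ :=
  if Good a b v then
    (1 - ((primeNorm v : ℂ) + 1 - (numPoints a b v : ℂ)) * (primeNorm v : ℂ) ^ (-s) +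
      (primeNorm v : ℂ) ^ (1 - 2 * s))⁻¹
  else 1

/-- `F` is analytic without zeros on `U` and is equal to the (incomplete) `L`-series, a convergent product, at
the points of `U` with `Re s > 3/2`. -/
def Continues (a b : 𝓞 K) (U : Set ℂ) (F : ℂ → ℂ) : Prop :=
  DifferentiableOn ℂ F U ∧ (∀ s ∈ U, F s ≠ 0) ∧
    ∀ s ∈ U, (3 : ℝ) / 2 < s.re → HasProd (fun v => localFactor a b v s) (F s)

/-- The open sector with vertex `1`: `s ≠ 1`, `|arg (s-1) - θ| < φ`. -/
def OpenSector (θ φ : ℝ) : Set ℂ := {s | s ≠ 1 ∧ |Complex.arg (s - 1) - θ| < φ}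

/-- The sector `S_{k,τ}`: `s ≠ 1`, `|arg (s-1) - arctan τ / k| < (π/2)(1 - 1/k)`. -/
def Sector (k τ : ℝ) : Set ℂ := OpenSector (Real.arctan τ / k) (Real.pi / 2 * (1 - 1 / k))

/-- `(k-1) (r/k)^(k/(k-1)) (1+τ²)^(-1/(2(k-1))) cos ((k/(k-1)) (u - arctan τ / k))` for `s = 1 + r e^{iu}` -/
noncomputable def rate (k τ : ℝ) (s : ℂ) : ℝ :=
  (k - 1) * (‖s - 1‖ / k) ^ (k / (k - 1)) / √(1 + τ ^ 2) ^ (1 / (k - 1)) *
    Real.cos (k / (k - 1) * (Complex.arg (s - 1) - Real.arctan τ / k))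

/-- The `L`-series has a continuation `exp ℓ` to the sector `(θ, φ)` with `ℓ` analytic and
`ℓ(s) = ρ log |s - 1| + O(1)` for `|s - 1| ≤ 1` on all smaller sectors `(θ, φ')`. -/
def HasOrder (a b : 𝓞 K) (θ φ : ℝ) (ρ : ℂ) : Prop :=
  ∃ ℓ : ℂ → ℂ, DifferentiableOn ℂ ℓ (OpenSector θ φ) ∧
    Continues a b (OpenSector θ φ) (fun s => Complex.exp (ℓ s)) ∧
    ∀ φ' < φ, ∃ C : ℝ, ∀ s ∈ OpenSector θ φ', ‖s - 1‖ ≤ 1 →
      ‖ℓ s - ρ * (Real.log ‖s - 1‖ : ℝ)‖ ≤ C

/-- The `L`-series has a continuation `exp ℓ` to the sector `(θ, φ)` with `ℓ` analytic and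
`ℓ(s) / log |s - 1| → ρ` as `s → 1` in all smaller sectors `(θ, φ')`. -/
def HasWeakOrder (a b : 𝓞 K) (θ φ : ℝ) (ρ : ℂ) : Prop :=
  ∃ ℓ : ℂ → ℂ, DifferentiableOn ℂ ℓ (OpenSector θ φ) ∧
    Continues a b (OpenSector θ φ) (fun s => Complex.exp (ℓ s)) ∧
    ∀ φ' < φ, Tendsto (fun s => ℓ s / (Real.log ‖s - 1‖ : ℝ)) (𝓝[OpenSector θ φ'] 1) (𝓝 ρ)

/-- `W(X) = (1 - 1/k) ρ log log X + O(1)` -/
def Law (W : ℝ → ℂ) (k : ℝ) (ρ : ℂ) : Prop :=
  ∃ C : ℝ, ∀ᶠ X : ℝ in atTop, ‖W X - (1 - 1 / k) * ρ * (Real.log (Real.log X) : ℝ)‖ ≤ C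

/-- `W(X) / log log X → (1 - 1/k) ρ` -/
def WeakLaw (W : ℝ → ℂ) (k : ℝ) (ρ : ℂ) : Prop :=
  Tendsto (fun X : ℝ => W X / (Real.log (Real.log X) : ℝ)) atTop (𝓝 ((1 - 1 / k) * ρ))

/-- `|W(X)| ≤ X^(η + o(1))` -/
def Growth (W : ℝ → ℂ) (η : ℝ) : Prop :=
  ∀ ε : ℝ, 0 < ε → ∀ᶠ X : ℝ in atTop, ‖W X‖ ≤ X ^ (η + ε)

/-- `A(X)` is between constant multiples of `(log X)^ρ`. -/
def Comparable (A : ℝ → ℝ) (ρ : ℝ) : Prop :=
  ∃ C : ℝ, 0 < C ∧ ∀ᶠ X : ℝ in atTop, C⁻¹ * Real.log X ^ ρ ≤ A X ∧ A X ≤ C * Real.log X ^ ρ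

/-- the rank of `E(K)`, `E : y² = x³ + a x + b` -/
noncomputable def rank (a b : 𝓞 K) : ℕ :=
  Module.finrank ℤ
    (WeierstrassCurve.Affine.Point
      (WeierstrassCurve.toAffine
        ({ a₁ := 0, a₂ := 0, a₃ := 0, a₄ := (a : K), a₆ := (b : K) } : WeierstrassCurve K)))

/-! ### Translation to the definitions of the imported files -/

variable {a b : 𝓞 K} {k τ : ℝ}

open Pool.Agent.D0H40.CX (qV tV ns_V PV Wn En Ev cv dn xq xq_cpow dn_sq)

theorem norm_eq (v : PV a b) : qV a b v = primeNorm v.1 := rfl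

omit [NumberField K] in
theorem affV_eq (v : HeightOneSpectrum (𝓞 K)) : numPoints a b v = Pool.Agent.D0H40.CX.affV a b v + 1 := rfl

theorem q_pos (v : HeightOneSpectrum (𝓞 K)) : (0 : ℝ) < primeNorm v := by
  have := Pool.Agent.H921R2.TatePole.two_le_nm v
  have h : primeNorm v = Pool.Agent.H921R2.TatePole.nm v := rfl
  rw [h]
  exact_mod_cast (by omega : 0 < Pool.Agent.H921R2.TatePole.nm v)

theorem cv_eq (v : PV a b) :
    cv (qV a b) (tV a b) v = Real.log ((numPoints a b v.1 : ℝ) / primeNorm v.1) := by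
  have hq := q_pos v.1
  unfold cv Pool.Agent.D0H40.CX.c2
  rw [dn_sq]
  congr 1
  have h1 : tV a b v = ((primeNorm v.1 : ℝ) - Pool.Agent.D0H40.CX.affV a b v.1) / primeNorm v.1 := rfl
  rw [h1, norm_eq, affV_eq]
  push_cast
  field_simp
  ring

theorem mem_goodPrimes {X : ℝ} {v : HeightOneSpectrum (𝓞 K)} :
    v ∈ goodPrimes a b X ↔ Good a b v ∧ (primeNorm v : ℝ) ≤ X := by
  unfold goodPrimes
  rw [Set.Finite.mem_toFinset]
  rfl

theorem wSum_eq (k τ X : ℝ) : wSum a b k τ X = Wn (qV a b) (tV a b) k τ X := by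
  have hf := (ns_V a b).le_finite X
  have hs : ∀ v ∉ hf.toFinset, (if (qV a b v : ℝ) ≤ X then (cv (qV a b) (tV a b) v : ℂ) *
      Pool.Agent.D0H40.KX.EE k (Pool.Agent.D0H40.KX.kap k τ (Real.log X)) (Real.log (qV a b v)) else 0) = 0 := by
    intro v hv
    rw [Set.Finite.mem_toFinset] at hv
    exact if_neg hv
  unfold Wn
  rw [tsum_eq_sum hs]
  unfold wSum
  symm
  refine Finset.sum_bij (fun v _ => v.1) (fun v hv => ?_) (fun v _ w _ h => Subtype.ext h)
    (fun v hv => ?_) (fun v hv => ?_)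
  · rw [Set.Finite.mem_toFinset] at hv
    exact mem_goodPrimes.2 ⟨v.2, hv⟩
  · obtain ⟨h1, h2⟩ := mem_goodPrimes.1 hv
    refine ⟨⟨v, h1⟩, ?_, rfl⟩
    rw [Set.Finite.mem_toFinset]
    exact h2
  · rw [Set.Finite.mem_toFinset] at hv
    rw [if_pos (show (qV a b v : ℝ) ≤ X from hv), cv_eq, norm_eq, mul_comm]
    congr 1
    unfold Pool.Agent.D0H40.KX.EE Pool.Agent.D0H40.KX.kap
    congr 2
    rw [mul_assoc, ← Complex.ofReal_mul, div_eq_mul_inv, mul_comm (((Real.log X) ^ (k - 1))⁻¹)]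

theorem quot_pos {v : HeightOneSpectrum (𝓞 K)} : 0 < (numPoints a b v : ℝ) / primeNorm v := by
  have h1 := q_pos v
  have h2 : (0 : ℝ) < numPoints a b v := by
    unfold numPoints
    push_cast
    positivity
  positivity

theorem wProd_pos (k X : ℝ) : 0 < wProd a b k X := by
  unfold wProd
  exact Finset.prod_pos fun v _ => Real.rpow_pos_of_pos quot_pos _

/-- `W_{k,0} = log P_k` -/
theorem wSum_zero (k X : ℝ) : wSum a b k 0 X = (Real.log (wProd a b k X) : ℝ) := by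
  unfold wProd wSum
  rw [Real.log_prod fun v _ => (Real.rpow_pos_of_pos quot_pos _).ne', Complex.ofReal_sum]
  refine Finset.sum_congr rfl fun v _ => ?_
  rw [Real.log_rpow quot_pos]
  push_cast
  simp

theorem factor_eq (v : PV a b) (s : ℂ) :
    localFactor a b v.1 s = Ev (qV a b) (tV a b) v (s - 1) := by
  have hq := q_pos v.1
  have hqc : (primeNorm v.1 : ℂ) ≠ 0 := by exact_mod_cast hq.ne'
  have hqn : 0 < primeNorm v.1 := by exact_mod_cast hq
  unfold localFactor Ev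
  rw [if_pos (show Good a b v.1 from v.2), norm_eq, xq_cpow hqn]
  have h1 : ((tV a b v : ℝ) : ℂ) = ((primeNorm v.1 : ℂ) + 1 - (numPoints a b v.1 : ℂ)) / primeNorm v.1 := by
    have h1 : tV a b v = ((primeNorm v.1 : ℝ) - Pool.Agent.D0H40.CX.affV a b v.1) / primeNorm v.1 := rfl
    rw [h1, affV_eq]
    push_cast
    ring
  rw [h1]
  have h2 : (primeNorm v.1 : ℂ) ^ (-(s - 1)) = (primeNorm v.1 : ℂ) ^ (-s) * primeNorm v.1 := by
    rw [neg_sub, sub_eq_add_neg, add_comm, Complex.cpow_add _ _ hqc, Complex.cpow_one]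
  have h3 : (primeNorm v.1 : ℂ) ^ (1 - 2 * s) =
      (primeNorm v.1 : ℂ) * ((primeNorm v.1 : ℂ) ^ (-s)) ^ 2 := by
    rw [sub_eq_add_neg, Complex.cpow_add _ _ hqc, Complex.cpow_one, ← Complex.cpow_nat_mul]
    congr 2
    push_cast
    ring
  rw [h2, h3]
  congr 1
  field_simp

/-- the Euler product of the imported files -/
theorem hasProd_iff {s : ℂ} (hs : (3 : ℝ) / 2 < s.re) (z : ℂ) :
    HasProd (fun v => localFactor a b v s) z ↔ z = En (qV a b) (tV a b) (s - 1) := by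
  have hw : 1 / 2 < (s - 1).re := by
    rw [Complex.sub_re, Complex.one_re]
    linarith
  have h1 := (ns_V a b).hasProd hw
  rw [(ns_V a b).En_eq hw] at h1
  have h2 : (fun v : PV a b => Ev (qV a b) (tV a b) v (s - 1)) =
      (fun v : HeightOneSpectrum (𝓞 K) => localFactor a b v s) ∘ ((↑) : {v // Good a b v} → _) := by
    funext v
    exact (factor_eq v s).symm
  rw [h2] at h1
  have h3 := (hasProd_subtype_iff_mulIndicator (s := {v | Good a b v})).1 h1
  have h4 : Set.mulIndicator {v | Good a b v} (fun v => localFactor a b v s) =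
      fun v => localFactor a b v s := by
    funext v
    rw [Set.mulIndicator_apply]
    by_cases hv : Good a b v
    · rw [if_pos (show v ∈ {v | Good a b v} from hv)]
    · rw [if_neg (show v ∉ {v | Good a b v} from hv)]
      unfold localFactor
      rw [if_neg hv]
  rw [h4] at h3
  constructor
  · intro h
    exact h.unique h3
  · rintro rfl
    exact h3

/-- the set `U - 1` -/
def shift (U : Set ℂ) : Set ℂ := {w | 1 + w ∈ U}

theorem continues_iff (U : Set ℂ) (F : ℂ → ℂ) : Continues a b U F ↔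
    Pool.Agent.D0H40.CX.Cont (En (qV a b) (tV a b)) (1 / 2) (shift U) (fun w => F (1 + w)) := by
  unfold Continues Pool.Agent.D0H40.CX.Cont
  constructor
  · rintro ⟨h1, h2, h3⟩
    refine ⟨h1.comp (by fun_prop) (fun w hw => hw), fun w hw => h2 _ hw, fun w hw hre => ?_⟩
    have h4 : (3 : ℝ) / 2 < (1 + w).re := by
      rw [Complex.add_re, Complex.one_re]
      linarith
    have := (hasProd_iff h4 _).1 (h3 _ hw h4)
    rwa [add_sub_cancel_left] at this
  · rintro ⟨h1, h2, h3⟩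
    have hsh : ∀ s ∈ U, s - 1 ∈ shift U := fun s hs => by
      show 1 + (s - 1) ∈ U
      rwa [add_sub_cancel]
    refine ⟨?_, fun s hs => ?_, fun s hs hre => ?_⟩
    · have := h1.comp (g := fun w => F (1 + w)) (f := fun s => s - 1) (s := U) (by fun_prop) hsh
      refine this.congr fun s _ => ?_
      show F s = F (1 + (s - 1))
      rw [add_sub_cancel]
    · have := h2 _ (hsh s hs)
      simpa only [add_sub_cancel] using this
    · refine (hasProd_iff hre _).2 ?_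
      have := h3 _ (hsh s hs) (by
        rw [Complex.sub_re, Complex.one_re]
        linarith)
      simpa only [add_sub_cancel] using this

theorem exists_continues (U : Set ℂ) : (∃ F : ℂ → ℂ, Continues a b U F) ↔
    ∃ F : ℂ → ℂ, Pool.Agent.D0H40.CX.Cont (En (qV a b) (tV a b)) (1 / 2) (shift U) F := by
  constructor
  · rintro ⟨F, hF⟩
    exact ⟨_, (continues_iff U F).1 hF⟩
  · rintro ⟨F, hF⟩
    refine ⟨fun s => F (s - 1), (continues_iff U _).2 ?_⟩
    simpa only [add_sub_cancel_left] using hF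

theorem shift_sector (θ φ : ℝ) : shift (OpenSector θ φ) = Pool.Agent.D0H40.CX.Os θ φ := by
  ext w
  unfold shift OpenSector Pool.Agent.D0H40.CX.Os
  simp only [Set.mem_ofPred_eq, add_sub_cancel_left, ne_eq, add_eq_left]

theorem shift_half : shift {s : ℂ | 1 < s.re} = {w : ℂ | 0 < w.re} := by
  ext w
  unfold shift
  simp only [Set.mem_ofPred_eq, Complex.add_re, Complex.one_re]
  constructor <;> intro h <;> linarith

theorem rate_eq (k τ : ℝ) (w : ℂ) : rate k τ (1 + w) = Pool.Agent.D0H40.KX.rate k τ w := by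
  unfold rate Pool.Agent.D0H40.KX.rate Pool.Agent.D0H40.KX.Mz Pool.Agent.D0H40.KX.qk
    Pool.Agent.D0H40.KX.qq Pool.Agent.D0H40.KX.kp Pool.Agent.D0H40.KX.bt
  rw [add_sub_cancel_left]

theorem shift_rate (k τ η : ℝ) : shift {s | s ∈ Sector k τ ∧ η < rate k τ s} =
    {w | w ∈ Pool.Agent.D0H40.KX.Sec k τ ∧ η < Pool.Agent.D0H40.KX.rate k τ w} := by
  ext w
  have h := congrArg (fun S : Set ℂ => w ∈ S)
    (shift_sector (Real.arctan τ / k) (Real.pi / 2 * (1 - 1 / k)))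
  simp only [eq_iff_iff] at h
  show (1 + w ∈ Sector k τ ∧ η < rate k τ (1 + w)) ↔ _
  rw [rate_eq]
  exact and_congr h Iff.rfl

theorem data_V (a b : 𝓞 K) : Pool.Agent.D0H40.CX.Data (wSum a b) (fun n : ℕ => Real.log n)
    (Pool.Agent.D0H40.CX.cn (qV a b) (tV a b)) (Pool.Agent.D0H40.CX.Gn (qV a b) (tV a b))
    (En (qV a b) (tV a b)) (1 / 2) := by
  have h := (ns_V a b).data
  have e : wSum a b = Wn (qV a b) (tV a b) := by
    funext k τ X
    exact wSum_eq k τ X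
  rwa [e]

theorem loglog_tendsto : Tendsto (fun X : ℝ => Real.log (Real.log X)) atTop atTop :=
  Real.tendsto_log_atTop.comp Real.tendsto_log_atTop

theorem law_iff (W : ℝ → ℂ) (k : ℝ) (ρ : ℂ) :
    Law W k ρ ↔ ∃ C : ℝ, Pool.Agent.D0H40.CX.XLaw W k ρ 0 C := by
  unfold Law Pool.Agent.D0H40.CX.XLaw
  simp only [zero_mul, zero_add]

theorem weakLaw_iff (W : ℝ → ℂ) (k : ℝ) (ρ : ℂ) :
    WeakLaw W k ρ ↔ ∀ ε > 0, ∃ C : ℝ, Pool.Agent.D0H40.CX.XLaw W k ρ ε C := by
  unfold WeakLaw Pool.Agent.D0H40.CX.XLaw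
  have hl := loglog_tendsto
  constructor
  · intro h ε hε
    refine ⟨0, ?_⟩
    rw [Metric.tendsto_nhds] at h
    filter_upwards [h ε hε, hl.eventually (eventually_gt_atTop 0)] with X h1 h2
    have h3 : ((Real.log (Real.log X) : ℝ) : ℂ) ≠ 0 := by exact_mod_cast h2.ne'
    rw [dist_eq_norm] at h1
    have e : W X - (1 - 1 / k) * ρ * (Real.log (Real.log X) : ℝ) =
        (W X / (Real.log (Real.log X) : ℝ) - (1 - 1 / k) * ρ) * (Real.log (Real.log X) : ℝ) := by
      field_simp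
    rw [e, norm_mul, Complex.norm_real, Real.norm_eq_abs, abs_of_pos h2, add_zero]
    exact mul_le_mul_of_nonneg_right h1.le h2.le
  · intro h
    rw [Metric.tendsto_nhds]
    intro ε hε
    obtain ⟨C, hC⟩ := h (ε / 2) (half_pos hε)
    filter_upwards [hC, hl.eventually (eventually_gt_atTop 0),
      hl.eventually (eventually_gt_atTop (C / (ε / 2)))] with X h1 h2 h3
    have h4 : ((Real.log (Real.log X) : ℝ) : ℂ) ≠ 0 := by exact_mod_cast h2.ne'
    rw [dist_eq_norm]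
    have e : W X / (Real.log (Real.log X) : ℝ) - (1 - 1 / k) * ρ =
        (W X - (1 - 1 / k) * ρ * (Real.log (Real.log X) : ℝ)) / (Real.log (Real.log X) : ℝ) := by
      field_simp
    rw [e, norm_div, Complex.norm_real, Real.norm_eq_abs, abs_of_pos h2, div_lt_iff₀ h2]
    rw [div_lt_iff₀ (half_pos hε)] at h3
    refine lt_of_le_of_lt h1 ?_
    have e2 : ε * Real.log (Real.log X) = ε / 2 * Real.log (Real.log X) + Real.log (Real.log X) * (ε / 2) := by
      ring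
    rw [e2]
    linarith

theorem mem_open (θ φ : ℝ) (w : ℂ) : 1 + w ∈ OpenSector θ φ ↔ w ∈ Pool.Agent.D0H40.CX.Os θ φ := by
  have h := congrArg (fun S : Set ℂ => w ∈ S) (shift_sector θ φ)
  simp only [eq_iff_iff] at h
  exact h

theorem log_conv (θ φ : ℝ) (ℓ : ℂ → ℂ) :
    (DifferentiableOn ℂ ℓ (OpenSector θ φ) ∧
      Continues a b (OpenSector θ φ) (fun s => Complex.exp (ℓ s))) ↔
    (DifferentiableOn ℂ (fun w => ℓ (1 + w)) (Pool.Agent.D0H40.CX.Os θ φ) ∧
      ∀ w ∈ Pool.Agent.D0H40.CX.Os θ φ, 1 / 2 < w.re →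
        Complex.exp (ℓ (1 + w)) = En (qV a b) (tV a b) w) := by
  rw [continues_iff, shift_sector]
  unfold Pool.Agent.D0H40.CX.Cont
  constructor
  · rintro ⟨h1, -, -, h2⟩
    exact ⟨h1.comp (by fun_prop) (fun w hw => (mem_open θ φ w).2 hw), h2⟩
  · rintro ⟨h1, h2⟩
    refine ⟨?_, h1.cexp, fun w _ => Complex.exp_ne_zero _, h2⟩
    have h3 : DifferentiableOn ℂ ((fun w => ℓ (1 + w)) ∘ fun s => s - 1) (OpenSector θ φ) :=
      h1.comp (by fun_prop) (fun s hs => by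
        rw [← mem_open, add_sub_cancel]
        exact hs)
    refine h3.congr fun s _ => ?_
    show ℓ s = ℓ (1 + (s - 1))
    rw [add_sub_cancel]

theorem hasOrder_iff (θ φ : ℝ) (ρ : ℂ) : HasOrder a b θ φ ρ ↔
    ∃ ℓ : ℂ → ℂ, Pool.Agent.D0H40.CX.OrdO (En (qV a b) (tV a b)) (1 / 2) θ φ ρ ℓ := by
  constructor
  · rintro ⟨ℓ, h1, h2, h3⟩
    obtain ⟨h4, h5⟩ := (log_conv θ φ ℓ).1 ⟨h1, h2⟩
    refine ⟨_, h4, h5, fun φ' hφ' => ?_⟩
    obtain ⟨C, hC⟩ := h3 φ' hφ'
    refine ⟨C, fun w hw hw1 => ?_⟩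
    have := hC (1 + w) ((mem_open θ φ' w).2 hw) (by rwa [add_sub_cancel_left])
    rwa [add_sub_cancel_left] at this
  · rintro ⟨ℓ, h1, h2, h3⟩
    have h4 := (log_conv (a := a) (b := b) θ φ (fun s => ℓ (s - 1))).2 (by
      simpa only [add_sub_cancel_left] using And.intro h1 h2)
    refine ⟨_, h4.1, h4.2, fun φ' hφ' => ?_⟩
    obtain ⟨C, hC⟩ := h3 φ' hφ'
    refine ⟨C, fun s hs hs1 => hC (s - 1) ?_ hs1⟩
    rw [← mem_open, add_sub_cancel]
    exact hs

theorem tendsto_conv (θ φ : ℝ) (ρ : ℂ) (ℓ : ℂ → ℂ) :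
    Tendsto (fun s => ℓ s / (Real.log ‖s - 1‖ : ℝ)) (𝓝[OpenSector θ φ] 1) (𝓝 ρ) ↔
    Tendsto (fun w => ℓ (1 + w) / (Real.log ‖w‖ : ℝ)) (𝓝[Pool.Agent.D0H40.CX.Os θ φ] 0) (𝓝 ρ) := by
  constructor
  · intro h
    have h1 : Tendsto (fun w : ℂ => 1 + w) (𝓝[Pool.Agent.D0H40.CX.Os θ φ] 0) (𝓝[OpenSector θ φ] 1) := by
      refine tendsto_nhdsWithin_iff.2 ⟨?_, ?_⟩
      · have : Tendsto (fun w : ℂ => 1 + w) (𝓝 0) (𝓝 (1 + 0)) := tendsto_id.const_add 1
        rw [add_zero] at this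
        exact this.mono_left nhdsWithin_le_nhds
      · filter_upwards [self_mem_nhdsWithin] with w hw
        exact (mem_open θ φ w).2 hw
    have h2 := h.comp h1
    refine h2.congr fun w => ?_
    simp only [Function.comp_apply, add_sub_cancel_left]
  · intro h
    have h1 : Tendsto (fun s : ℂ => s - 1) (𝓝[OpenSector θ φ] 1) (𝓝[Pool.Agent.D0H40.CX.Os θ φ] 0) := by
      refine tendsto_nhdsWithin_iff.2 ⟨?_, ?_⟩
      · have : Tendsto (fun s : ℂ => s - 1) (𝓝 1) (𝓝 (1 - 1)) := tendsto_id.sub_const 1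
        rw [sub_self] at this
        exact this.mono_left nhdsWithin_le_nhds
      · filter_upwards [self_mem_nhdsWithin] with s hs
        rw [← mem_open, add_sub_cancel]
        exact hs
    have h2 := h.comp h1
    refine h2.congr fun s => ?_
    simp only [Function.comp_apply, add_sub_cancel]

theorem hasWeakOrder_iff {θ φ : ℝ} (hφ : |θ| + φ ≤ Real.pi / 2) (ρ : ℂ) : HasWeakOrder a b θ φ ρ ↔
    ∃ ℓ : ℂ → ℂ, Pool.Agent.D0H40.CX.Ordo (En (qV a b) (tV a b)) (1 / 2) θ φ ρ ℓ := by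
  constructor
  · rintro ⟨ℓ, h1, h2, h3⟩
    obtain ⟨h4, h5⟩ := (log_conv θ φ ℓ).1 ⟨h1, h2⟩
    refine ⟨fun w => ℓ (1 + w), (Pool.Agent.D0H40.CX.Ordo_iff _ _ _ _).2 ⟨h4, h5, ?_⟩⟩
    rw [Pool.Agent.D0H40.CX.vertex_iff hφ ρ h4.continuousOn]
    exact fun φ' hφ' => (tendsto_conv θ φ' ρ ℓ).1 (h3 φ' hφ')
  · rintro ⟨ℓ, hℓ⟩
    obtain ⟨h1, h2, h3⟩ := (Pool.Agent.D0H40.CX.Ordo_iff _ _ _ _).1 hℓ
    rw [Pool.Agent.D0H40.CX.vertex_iff hφ ρ h1.continuousOn] at h3
    have h4 := (log_conv (a := a) (b := b) θ φ (fun s => ℓ (s - 1))).2 (by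
      simpa only [add_sub_cancel_left] using And.intro h1 h2)
    refine ⟨_, h4.1, h4.2, fun φ' hφ' => (tendsto_conv θ φ' ρ _).2 ?_⟩
    simpa only [add_sub_cancel_left] using h3 φ' hφ'

/-- from the logarithmic form to the multiplicative form -/
theorem comparable_iff (k ρ : ℝ) : Comparable (wProd a b k) ((1 - 1 / k) * ρ) ↔
    Law (wSum a b k 0) k ρ := by
  have hlog : Tendsto Real.log atTop atTop := Real.tendsto_log_atTop
  have e : ∀ X : ℝ, ‖wSum a b k 0 X - (1 - 1 / k) * ρ * (Real.log (Real.log X) : ℝ)‖ =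
      |Real.log (wProd a b k X) - (1 - 1 / k) * ρ * Real.log (Real.log X)| := by
    intro X
    rw [wSum_zero, ← Real.norm_eq_abs, ← Complex.norm_real]
    congr 1
    push_cast
    ring
  constructor
  · rintro ⟨C, hC0, hC⟩
    refine ⟨|Real.log C|, ?_⟩
    filter_upwards [hC, hlog.eventually (eventually_gt_atTop 0)] with X h2 h5
    rw [e]
    have h5' : 0 < Real.log X ^ ((1 - 1 / k) * ρ) := Real.rpow_pos_of_pos h5 _
    have h8 := Real.log_le_log (by positivity) h2.1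
    have h9 := Real.log_le_log (wProd_pos k X) h2.2
    rw [Real.log_mul (inv_pos.2 hC0).ne' h5'.ne', Real.log_inv, Real.log_rpow h5] at h8
    rw [Real.log_mul hC0.ne' h5'.ne', Real.log_rpow h5] at h9
    have h10 := le_abs_self (Real.log C)
    rw [abs_le]
    constructor <;> linarith
  · rintro ⟨C, hC⟩
    refine ⟨Real.exp C, Real.exp_pos _, ?_⟩
    filter_upwards [hC, hlog.eventually (eventually_gt_atTop 0)] with X h2 h5
    rw [e] at h2
    have h4 := abs_le.1 h2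
    have e1 : wProd a b k X = Real.exp (Real.log (wProd a b k X)) := (Real.exp_log (wProd_pos k X)).symm
    have e2 : Real.log X ^ ((1 - 1 / k) * ρ) = Real.exp ((1 - 1 / k) * ρ * Real.log (Real.log X)) := by
      rw [Real.rpow_def_of_pos h5, mul_comm]
    rw [e1, e2, ← Real.exp_neg, ← Real.exp_add, ← Real.exp_add]
    constructor
    · apply Real.exp_le_exp.2
      linarith [h4.1]
    · apply Real.exp_le_exp.2
      linarith [h4.2]

theorem growth_zero (W : ℝ → ℂ) : Growth W 0 ↔ ∀ ε : ℝ, 0 < ε → ∀ᶠ X : ℝ in atTop, ‖W X‖ ≤ X ^ ε := by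
  unfold Growth
  simp only [zero_add]

/-- a meromorphic continuation in the coordinate `w = s - 1` -/
theorem mcont {F : ℂ → ℂ} (h1 : ∀ s : ℂ, 1 < s.re → MeromorphicAt F s) (h2 : MeromorphicAt F 1)
    (h3 : ∀ s : ℂ, (3 : ℝ) / 2 < s.re → HasProd (fun v => localFactor a b v s) (F s)) :
    Pool.Agent.D0H40.CX.MCont (En (qV a b) (tV a b)) (1 / 2) (fun w => F (1 + w)) where
  mero := fun w hw => by
    have h4 : MeromorphicAt F (1 + w) := h1 (1 + w) (by
      rw [Complex.add_re, Complex.one_re]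
      linarith)
    exact h4.comp_analyticAt (f := F) (g := fun w : ℂ => 1 + w) (by fun_prop)
  vert := by
    have h4 : MeromorphicAt F (1 + 0) := by rwa [add_zero]
    exact h4.comp_analyticAt (f := F) (g := fun w : ℂ => 1 + w) (by fun_prop)
  eq := fun w hw => by
    have h4 : (3 : ℝ) / 2 < (1 + w).re := by
      rw [Complex.add_re, Complex.one_re]
      linarith
    have := (hasProd_iff h4 _).1 (h3 _ h4)
    rwa [add_sub_cancel_left] at this

theorem order_shift (F : ℂ → ℂ) :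
    meromorphicOrderAt (fun w => F (1 + w)) 0 = meromorphicOrderAt F 1 := by
  have h1 : AnalyticAt ℂ (fun w : ℂ => 1 + w) 0 := by fun_prop
  have h2 : deriv (fun w : ℂ => 1 + w) 0 ≠ 0 := by
    rw [deriv_const_add, deriv_id'']
    exact one_ne_zero
  have h3 := meromorphicOrderAt_comp_of_deriv_ne_zero (f := F) h1 h2
  rw [add_zero] at h3
  exact h3

/-- **Finite products and continuation.** -/
theorem result (K : Type) [Field K] [NumberField K] (a b : 𝓞 K) (_hΔ : 4 * a ^ 3 + 27 * b ^ 2 ≠ 0) :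
    -- growth and continuation
    (∀ k τ η : ℝ, 1 < k → 0 ≤ η → (Growth (wSum a b k τ) η ↔
      ∃ F : ℂ → ℂ, Continues a b {s | s ∈ Sector k τ ∧ η < rate k τ s} F)) ∧
    (∀ k τ : ℝ, 1 < k → (Growth (wSum a b k τ) 0 ↔ ∃ F : ℂ → ℂ, Continues a b (Sector k τ) F)) ∧
    ((∀ k : ℝ, 1 < k → Growth (wSum a b k 0) 0) ↔ ∃ F : ℂ → ℂ, Continues a b {s | 1 < s.re} F) ∧
    (∀ k : ℝ, 1 < k → ((∀ τ : ℝ, Growth (wSum a b k τ) 0) ↔
      ∃ F : ℂ → ℂ, Continues a b {s | 1 < s.re} F)) ∧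
    -- the law and the order at `s = 1`
    (∀ (k τ : ℝ) (ρ : ℂ), 1 < k →
      (Law (wSum a b k τ) k ρ → HasOrder a b (Real.arctan τ / k) (Real.pi / 2 * (1 - 1 / k)) ρ) ∧
      (WeakLaw (wSum a b k τ) k ρ →
        HasWeakOrder a b (Real.arctan τ / k) (Real.pi / 2 * (1 - 1 / k)) ρ)) ∧
    (∀ (k τ θ φ : ℝ) (ρ : ℂ), 1 < k → |θ| + φ ≤ Real.pi / 2 →
      |Real.arctan τ / k - θ| + Real.pi / 2 * (1 - 1 / k) < φ →
      (HasOrder a b θ φ ρ → Law (wSum a b k τ) k ρ) ∧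
      (HasWeakOrder a b θ φ ρ → WeakLaw (wSum a b k τ) k ρ)) ∧
    -- some, all
    (∀ ρ : ℂ, ((∃ k τ : ℝ, 1 < k ∧ Law (wSum a b k τ) k ρ) ↔
        ∃ θ φ : ℝ, 0 < φ ∧ |θ| + φ ≤ Real.pi / 2 ∧ HasOrder a b θ φ ρ) ∧
      ((∃ k τ : ℝ, 1 < k ∧ WeakLaw (wSum a b k τ) k ρ) ↔
        ∃ θ φ : ℝ, 0 < φ ∧ |θ| + φ ≤ Real.pi / 2 ∧ HasWeakOrder a b θ φ ρ)) ∧
    (∀ ρ : ℂ, ((∀ k : ℝ, 1 < k → Law (wSum a b k 0) k ρ) ↔ HasOrder a b 0 (Real.pi / 2) ρ) ∧
      ((∀ k : ℝ, 1 < k → WeakLaw (wSum a b k 0) k ρ) ↔ HasWeakOrder a b 0 (Real.pi / 2) ρ)) ∧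
    (∀ (k : ℝ) (ρ : ℂ), 1 < k →
      ((∀ τ : ℝ, Law (wSum a b k τ) k ρ) ↔ HasOrder a b 0 (Real.pi / 2) ρ) ∧
      ((∀ τ : ℝ, WeakLaw (wSum a b k τ) k ρ) ↔ HasWeakOrder a b 0 (Real.pi / 2) ρ)) ∧
    -- the products
    (∀ ρ : ℝ, ((∀ k : ℝ, 1 < k → Comparable (wProd a b k) ((1 - 1 / k) * ρ)) ↔
        HasOrder a b 0 (Real.pi / 2) ρ) ∧
      ∀ k k' : ℝ, 1 < k' → k' < k → Comparable (wProd a b k) ((1 - 1 / k) * ρ) →
        Comparable (wProd a b k') ((1 - 1 / k') * ρ)) ∧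
    -- meromorphic continuations and the rank form
    (∀ F : ℂ → ℂ, (∀ s : ℂ, 1 < s.re → MeromorphicAt F s) → MeromorphicAt F 1 →
      (∀ s : ℂ, (3 : ℝ) / 2 < s.re → HasProd (fun v => localFactor a b v s) (F s)) →
      (∀ ρ : ℂ, ((∃ k τ : ℝ, 1 < k ∧ WeakLaw (wSum a b k τ) k ρ) ↔
          ∃ m : ℤ, meromorphicOrderAt F 1 = m ∧ ρ = m) ∧
        ((∃ k τ : ℝ, 1 < k ∧ Law (wSum a b k τ) k ρ) ↔
          ∃ m : ℤ, meromorphicOrderAt F 1 = m ∧ ρ = m)) ∧
      (meromorphicOrderAt F 1 = rank a b ↔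
        ∃ k τ : ℝ, 1 < k ∧ WeakLaw (wSum a b k τ) k (rank a b))) := by
  have D := data_V a b
  have hlaw0 : ∀ ρ : ℂ, (∀ k : ℝ, 1 < k → Law (wSum a b k 0) k ρ) ↔ HasOrder a b 0 (Real.pi / 2) ρ := by
    intro ρ
    simp only [law_iff, hasOrder_iff]
    exact D.allO ρ
  have hto : ∀ (k τ : ℝ) (ρ : ℂ), 1 < k → Law (wSum a b k τ) k ρ →
      HasOrder a b (Real.arctan τ / k) (Real.pi / 2 * (1 - 1 / k)) ρ := by
    intro k τ ρ hk h
    rw [law_iff] at h
    rw [hasOrder_iff]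
    exact D.toO hk τ h
  have hof : ∀ (k τ θ φ : ℝ) (ρ : ℂ), 1 < k → |θ| + φ ≤ Real.pi / 2 →
      |Real.arctan τ / k - θ| + Real.pi / 2 * (1 - 1 / k) < φ → HasOrder a b θ φ ρ →
      Law (wSum a b k τ) k ρ := by
    intro k τ θ φ ρ hk hφ hin h
    rw [hasOrder_iff] at h
    obtain ⟨ℓ, hℓ⟩ := h
    rw [law_iff]
    exact D.ofO hφ hℓ hk τ hin
  refine ⟨fun k τ η hk hη => ?_, fun k τ hk => ?_, ?_, fun k hk => ?_,
    fun k τ ρ hk => ⟨hto k τ ρ hk, fun h => ?_⟩,
    fun k τ θ φ ρ hk hφ hin => ⟨hof k τ θ φ ρ hk hφ hin, fun h => ?_⟩,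
    fun ρ => ⟨?_, ?_⟩, fun ρ => ⟨hlaw0 ρ, ?_⟩, fun k ρ hk => ⟨?_, ?_⟩, fun ρ => ⟨?_, ?_⟩, ?_⟩
  · rw [exists_continues, shift_rate]
    exact D.growth hk τ hη
  · rw [exists_continues, growth_zero]
    have h := D.growth0 hk τ
    unfold Sector
    rwa [shift_sector]
  · rw [exists_continues, shift_half]
    simp only [growth_zero]
    exact D.growth_all
  · rw [exists_continues, shift_half]
    simp only [growth_zero]
    exact D.growth_dir hk
  · rw [weakLaw_iff] at h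
    have hb : |Real.arctan τ / k| + Real.pi / 2 * (1 - 1 / k) ≤ Real.pi / 2 :=
      (Pool.Agent.D0H40.KX.bt_abs_lt hk τ).le
    rw [hasWeakOrder_iff hb]
    exact D.too hk τ h
  · rw [hasWeakOrder_iff hφ] at h
    obtain ⟨ℓ, hℓ⟩ := h
    rw [weakLaw_iff]
    exact D.ofo hφ hℓ hk τ hin
  · simp only [law_iff, hasOrder_iff]
    exact D.someO ρ
  · simp only [weakLaw_iff]
    rw [D.someo ρ]
    refine exists_congr fun θ => exists_congr fun φ => and_congr_right fun _ => and_congr_right fun hφ => ?_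
    rw [hasWeakOrder_iff hφ]
  · simp only [weakLaw_iff]
    rw [hasWeakOrder_iff (by simp)]
    exact D.allo ρ
  · simp only [law_iff, hasOrder_iff]
    exact D.dirO hk ρ
  · simp only [weakLaw_iff]
    rw [hasWeakOrder_iff (by simp)]
    exact D.diro hk ρ
  · rw [← hlaw0]
    simp only [comparable_iff]
  · intro k k' hk' hkk h
    have hk : 1 < k := by linarith
    rw [comparable_iff] at h ⊢
    have h1 := hto k 0 ρ hk h
    rw [Real.arctan_zero, zero_div] at h1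
    have hfc := Pool.Agent.D0H40.KX.fc_lt hk
    unfold Pool.Agent.D0H40.KX.fc at hfc
    refine hof k' 0 0 _ ρ hk' ?_ ?_ h1
    · rw [abs_zero, zero_add]
      exact hfc.le
    · rw [Real.arctan_zero, zero_div, sub_zero, abs_zero, zero_add]
      have h2 : 1 / k < 1 / k' := one_div_lt_one_div_of_lt (by linarith) hkk
      have h3 : 0 < Real.pi / 2 := by positivity
      exact mul_lt_mul_of_pos_left (by linarith) h3
  · intro F hF1 hF2 hF3
    have hM := mcont hF1 hF2 hF3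
    have hfwd : ∀ m : ℤ, meromorphicOrderAt F 1 = m → ∃ k τ : ℝ, 1 < k ∧ Law (wSum a b k τ) k m := by
      intro m hm
      simp only [law_iff]
      exact D.mero_law (by norm_num) hM (by rw [order_shift]; exact hm)
    have hbwd : ∀ (ρ : ℂ) (k τ : ℝ), 1 < k → WeakLaw (wSum a b k τ) k ρ →
        ∃ m : ℤ, meromorphicOrderAt F 1 = m ∧ ρ = m := by
      intro ρ k τ hk h
      rw [weakLaw_iff] at h
      have := D.law_mero hM hk τ h
      rwa [order_shift] at this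
    have hweak : ∀ (ρ : ℂ) (k τ : ℝ), Law (wSum a b k τ) k ρ → WeakLaw (wSum a b k τ) k ρ := by
      intro ρ k τ h
      rw [law_iff] at h
      rw [weakLaw_iff]
      intro ε hε
      obtain ⟨C, hC⟩ := h
      refine ⟨C, ?_⟩
      filter_upwards [hC, loglog_tendsto.eventually (eventually_ge_atTop 0)] with X h1 h2
      refine h1.trans ?_
      have : 0 ≤ ε * Real.log (Real.log X) := by positivity
      linarith
    refine ⟨fun ρ => ⟨⟨?_, ?_⟩, ⟨?_, ?_⟩⟩, ⟨fun h => ?_, ?_⟩⟩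
    · rintro ⟨k, τ, hk, h⟩
      exact hbwd ρ k τ hk h
    · rintro ⟨m, hm, rfl⟩
      obtain ⟨k, τ, hk, h⟩ := hfwd m hm
      exact ⟨k, τ, hk, hweak _ _ _ h⟩
    · rintro ⟨k, τ, hk, h⟩
      exact hbwd ρ k τ hk (hweak _ _ _ h)
    · rintro ⟨m, hm, rfl⟩
      exact hfwd m hm
    · have h1 : meromorphicOrderAt F 1 = ((rank a b : ℤ) : WithTop ℤ) := by
        rw [h]
        rfl
      obtain ⟨k, τ, hk, h2⟩ := hfwd _ h1
      refine ⟨k, τ, hk, ?_⟩
      have := hweak _ _ _ h2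
      rwa [Int.cast_natCast] at this
    · rintro ⟨k, τ, hk, h⟩
      obtain ⟨m, hm, h1⟩ := hbwd _ k τ hk h
      have h2 : (rank a b : ℤ) = m := by exact_mod_cast h1
      rw [hm, ← h2]
      rfl

end Pool.Agent.Results.MP_ae0bd0_nt.ProductsAndContinuation
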