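import Pool.Agent.D0H43.MQ.Ov2
import Pool.Agent.D0H10.Q4.Num
import Pool.Agent.D0H70.MQ.Selot
import Pool.Agent.D0H70.MQ.Step
import Pool.Agent.D0H70.MQ.Spl2
import Pool.Agent.D0H41.MQ.Ff2
import Pool.Agent.D0H41.MQ.Locl
import Pool.Agent.D0H43.MQ.Lst

/-!
# The rank part of the Birch and Swinnerton-Dyer conjecture for the quartic twists of `y² = x³ - x` by
# elements of `ℤ[i]`, over the multiquadratic extensions of `ℚ(i)` generated by the square roots of the
# divisors, with exact proportions

`K = ℚ(i)`.  `D` runs through the elements of `𝓞 K = ℤ[i]` of one of the two kinds: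

* `D` is squarefree and not `1` modulo `2` (two thirds of all the squarefree `D`: those with
  `D = i` modulo `2` and those divisible by `1 + i`, one third each);
* `D = 2 Δ` with `Δ` squarefree and `Δ = 1` modulo `2 + 2 i`.

`E_D` is the curve `y² = x³ + D x`, the twist of `y² = x³ - x` by a quartic character.  Let
`c = ∏_{i ≥ 0} (1 - 2^{-(2 i + 1)}) = 0.4194...`.

* (Over `K`.)  For every `D` of the family the function `L(E_D / K, s)` has an entire continuation, and if
  (*) `E_D(K)` is finite and `Ш(E_D / K)[2^∞] = 0`, then `L(E_D / K, 1) ≠ 0`: the rank and the order of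
  vanishing are equal to `0`.
* (All extensions at once.)  Let `D` be any member of the family with (*).  Then for EVERY number
  field `F` that is generated over `K` by square roots of divisors of `D` that are `1` modulo `2`, and for
  every such divisor `t`, the curve `E_{D t²}` over `F` has finitely many points, its
  Tate-Shafarevich group satisfies: `[F : K]` kills the `2`-primary part, and the `L`-function of
  `E_{D t²}` over `F` has a meromorphic continuation to the whole plane which is analytic and not zero at
  `1`: the rank and the order of vanishing are `0`.  (The degrees `[F : K]` are all the powers of two up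
  to `2 ^ n` if `D` has `n` prime divisors different from `1 + i`; the `2 ^ n` curves `E_{D t²}` over `K` are
  the quadratic twists of `E_D` by the `K(√t)`.)
* (Units.)  Let `D` be squarefree and not `1` modulo `2`.  If (*) holds for `D` and for `-D`, then the same
  is true for all the fields `F` generated by square roots of divisors of `D` that are prime to `2`, units
  included, for example `ℚ(ζ₈)`.  For `D = i` modulo `2` the condition for `-D` follows from the one for `D`.
* (Square roots of `(1 + i) t`.)  Let `i` be one of the square roots of `-1`.  For `D = 2 Δ` as above, and for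
  the squarefree `D = - i` modulo `2 + 2 i`, (*) implies the same for all the fields `F` generated by square
  roots of the elements `t` and `(1 + i) t`, `t ∣ D`, `t = 1` modulo `2`, and for the twists by all of these.
* (Proportions.)  The proportion of the `D` with (*) among the `D` of the family, ordered by the norm,
  tends to `c`, and the same for each of the classes `D = i` modulo `2`, `D` divisible by `1 + i`, `D = 2 Δ`.
  Among ALL the squarefree elements of `ℤ[i]` the proportion of the `D`, not `1` modulo `2`, with (*)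
  tends to `2 c / 3 = 0.2796...`; the proportion of those with (*) for `D` and `-D` tends to `c / 2`, and to
  `c / 2` also among the `D` divisible by `1 + i`.

For a quartic character there is no recursion for the central values from one number to the next: the
central value is a sum over the classes modulo `D` of the values of an elliptic function at division points
times quartic residue symbols; its class modulo the primes above two is the determinant of a matrix of
quadratic residue symbols over the field with two elements.  The matrix is the SAME for all the twists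
`D t²`: the exponents of the primes in the quartic symbol enter only modulo two.  The descent by `1 + i`
gives the same matrix, and so one condition settles all the twists and, by induction over towers of quadratic
extensions, all the fields `F`: `L(E_D / F, s)` is, up to finitely many Euler factors that do not vanish,
the product of the `L(E_{D t²} / K, s)`, and the points and the Tate-Shafarevich groups are reduced to `K`
by the norms.  The exact distribution of the determinants is computed with the large sieve.

The group `Sha` of the library is the group of the continuous cocycles of the absolute Galois group of the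
field with values in the points over an algebraic closure that are coboundaries at all the places, modulo
the coboundaries.

Joint work: helper10 and helper43 (method, the classes of squarefree `D`), helper43 (towers, assembly),
helper70 (Euler products over quadratic extensions, descent for `1 + i ∣ D`), helper41 (finite fields, local
factors), helper24 (`L`-series of the twists, independently), and modules by helper2, helper13, helper15, helper42,
helper45, helper49, helper52, helper54, helper69, helper76, helper77, helper84, helper92.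
-/

set_option autoImplicit false

namespace Pool.Agent.Results.MP_ae0bd0_nt.QuarticTwistsOverExtensions

open NumberField WeierstrassCurve
open Pool.Agent.TH841.NF.D (Sha)
open scoped Classical

/-- The curve `E_D : y² = x³ + D x`. -/
def curve {F : Type} [Field F] (D : F) : WeierstrassCurve F := ⟨0, 0, 0, D, 0⟩

/-- The `L`-series of `W` converges absolutely for `Re s > 3 / 2` and is there equal to an entire
function. -/
def EntireL {F : Type} [Field F] [NumberField F] (W : WeierstrassCurve F) : Prop :=
  ∃ L : ℂ → ℂ, Differentiable ℂ L ∧ ∀ s : ℂ, 3 / 2 < s.re →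
    LSeriesSummable ((fun n : ℤ => (n : ℂ)) ∘ W.LFunction) s ∧ L s = W.LSeries s

/-- The rank part of the conjecture for `W` over `F`, with rank `0`: `W` is an elliptic curve, `W(F)` is
finite, and the `L`-series of `W` continues analytically from `Re s > 3 / 2` to a connected open set
that contains `1`, where its order of vanishing is equal to the rank of `W(F)`. -/
def RankZero {F : Type} [Field F] [NumberField F] (W : WeierstrassCurve F) : Prop :=
  W.IsElliptic ∧ Finite W.toAffine.Point ∧
  ∃ (U : Set ℂ) (L : ℂ → ℂ),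
    IsOpen U ∧ IsConnected U ∧ {s : ℂ | (3 / 2 : ℝ) < s.re} ⊆ U ∧ (1 : ℂ) ∈ U ∧
    AnalyticOnNhd ℂ L U ∧ (∀ s : ℂ, (3 / 2 : ℝ) < s.re → L s = W.LSeries s) ∧
    (∀ r : ℕ, r < Module.finrank ℤ W.toAffine.Point → iteratedDeriv r L 1 = 0) ∧
    iteratedDeriv (Module.finrank ℤ W.toAffine.Point) L 1 ≠ 0

section defs

variable {K : Type} [Field K] [NumberField K]

/-- `D` is squarefree and not `1` modulo `2`. -/
def NotOneModTwo (D : 𝓞 K) : Prop := Squarefree D ∧ ¬ 2 ∣ D - 1

/-- `D` is squarefree and `D = i` modulo `2` for a square root `i` of `-1`. -/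
def OddImaginary (D : 𝓞 K) : Prop := Squarefree D ∧ ∃ i : 𝓞 K, i ^ 2 = -1 ∧ 2 ∣ D - i

/-- `D` is squarefree and divisible by `1 + i` for a square root `i` of `-1`. -/
def EvenNorm (D : 𝓞 K) : Prop := Squarefree D ∧ ∃ i : 𝓞 K, i ^ 2 = -1 ∧ 1 + i ∣ D

/-- `D = 2 Δ`, `Δ` is squarefree and `Δ = 1` modulo `2 + 2 i` for a square root `i` of `-1`. -/
def TwicePrimary (D : 𝓞 K) : Prop :=
  ∃ Δ : 𝓞 K, Squarefree Δ ∧ (∃ i : 𝓞 K, i ^ 2 = -1 ∧ 2 + 2 * i ∣ Δ - 1) ∧ D = 2 * Δ

/-- The family. -/
def InFamily (D : 𝓞 K) : Prop := NotOneModTwo D ∨ TwicePrimary D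

/-- `E_D(K)` is finite and the `2`-primary part of `Ш(E_D / K)` is trivial. -/
def FiniteAndTrivial (D : 𝓞 K) : Prop :=
  Finite (curve (D : K)).toAffine.Point ∧ ∀ (n : ℕ) (x : Sha (curve (D : K))), 2 ^ n • x = 0 → x = 0

/-- (*) for `D` and for `-D`. -/
def BothSigns (D : 𝓞 K) : Prop := FiniteAndTrivial D ∧ FiniteAndTrivial (-D)

/-- `t` is a divisor of `D` and `1` modulo `2`. -/
def OneDivisor (D t : 𝓞 K) : Prop := t ∣ D ∧ 2 ∣ t - 1

/-- `t` is a divisor of `D` and prime to `2`. -/
def OddDivisor (D t : 𝓞 K) : Prop := t ∣ D ∧ IsCoprime t 2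

/-- `t = t'` or `t = (1 + i) t'` for a divisor `t'` of `D` that is `1` modulo `2`. -/
def ExtendedDivisor (i D t : 𝓞 K) : Prop := ∃ t', OneDivisor D t' ∧ (t = t' ∨ t = (1 + i) * t')

/-- `D = 2 Δ` as in `TwicePrimary`, or `D` is squarefree and `D = - i` modulo `2 + 2 i`. -/
def Linked (i D : 𝓞 K) : Prop := TwicePrimary D ∨ (Squarefree D ∧ 2 + 2 * i ∣ D + i)

/-- `F` is generated over `K` by finitely many square roots of elements `t` with the property `T`. -/
def GeneratedByRoots (F : Type) [Field F] [Algebra K F] (T : 𝓞 K → Prop) : Prop :=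
  ∃ (n : ℕ) (x : Fin n → F), (∀ k, ∃ t : 𝓞 K, T t ∧ x k ^ 2 = algebraMap K F (t : K)) ∧
    IntermediateField.adjoin K (Set.range x) = ⊤

/-- `E_D` is an elliptic curve over `F`, `E_D(F)` is finite, the degree `[F : K]` kills the `2`-primary part
of `Ш(E_D / F)`, and the `L`-series of `E_D` over `F` has a meromorphic continuation to `ℂ` that is analytic
and not zero at `1`. -/
def OverField (F : Type) [Field F] [NumberField F] [Algebra K F] (D : 𝓞 K) : Prop :=
  (curve (algebraMap K F (D : K))).IsElliptic ∧
  Finite (curve (algebraMap K F (D : K))).toAffine.Point ∧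
  (∀ (k : ℕ) (y : Sha (curve (algebraMap K F (D : K)))), 2 ^ k • y = 0 →
    Module.finrank K F • y = 0) ∧
  ∃ L : ℂ → ℂ, MeromorphicOn L Set.univ ∧ AnalyticAt ℂ L 1 ∧ L 1 ≠ 0 ∧
    ∀ s : ℂ, 2 < s.re → L s = (curve (algebraMap K F (D : K))).LSeries s

/-- For every number field `F` generated over `K` by square roots of elements with the property `T D`, and
for every `t` with the property `T D`, the curve `E_{D t²}` satisfies `OverField F`. -/
def OverAllFields (T : 𝓞 K → 𝓞 K → Prop) (D : 𝓞 K) : Prop :=
  ∀ (F : Type) [Field F] [NumberField F] [Algebra K F], GeneratedByRoots F (T D) →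
    ∀ t : 𝓞 K, T D t → OverField F (D * t ^ 2)

/-- The proportion, among the `D` of norm at most `X` with the property `Q`, of the `D` with the
properties `P` and `T`. -/
noncomputable def proportion (P Q T : 𝓞 K → Prop) (X : ℕ) : ℝ :=
  ({D : 𝓞 K | Algebra.norm ℤ D ≤ X ∧ P D ∧ T D}.ncard : ℝ) /
    ({D : 𝓞 K | Algebra.norm ℤ D ≤ X ∧ Q D}.ncard : ℝ)

end defs

/-- `∏_{i ≥ 0} (1 - 2^{-(2 i + 1)})`. -/
noncomputable def c : ℝ := ∏' i : ℕ, (1 - (1 / 2 : ℝ) ^ (2 * i + 1))

/-- the inputs -/
theorem bm : Pool.Agent.D0H43.MQ.BM where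
  step := Pool.Agent.D0H70.MQ.step Pool.Agent.D0H41.MQ.ff2 Pool.Agent.D0H70.MQ.spl2
  locl := Pool.Agent.D0H41.MQ.locl
  ls1 := Pool.Agent.D0H43.MQ.ls1t
  lso := Pool.Agent.D0H43.MQ.lsot Pool.Agent.D0H13.Q4.supl
  selo := Pool.Agent.D0H70.MQ.selot

theorem over_of {K : Type} [Field K] [NumberField K] {D : 𝓞 K} {T : 𝓞 K → 𝓞 K → Prop}
    (h : Pool.Agent.D0H43.MQ.Pk D (T D)) : OverAllFields T D := by
  intro F _ _ _ hF t ht
  obtain ⟨h1, h2, h3⟩ := h.rkF bm F hF t ht
  exact ⟨h1, h2, fun k y hy => h.sha Pool.Agent.D0H70.MQ.selot F hF t ht k y hy, h3⟩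

theorem result (K : Type) [Field K] [NumberField K] [IsCyclotomicExtension {4} ℚ K] :
    (∀ D : 𝓞 K, InFamily D →
      EntireL (curve (D : K)) ∧ (FiniteAndTrivial D → RankZero (curve (D : K)))) ∧
    (∀ D : 𝓞 K, InFamily D → FiniteAndTrivial D → OverAllFields OneDivisor D) ∧
    (∀ D : 𝓞 K, NotOneModTwo D → BothSigns D → OverAllFields OddDivisor D) ∧
    (∀ D : 𝓞 K, OddImaginary D → FiniteAndTrivial D → BothSigns D) ∧
    (∀ i : 𝓞 K, i ^ 2 = -1 → ∀ D : 𝓞 K, Linked i D → FiniteAndTrivial D →
      OverAllFields (ExtendedDivisor i) D) ∧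
    (∀ P : 𝓞 K → Prop, P = InFamily ∨ P = OddImaginary ∨ P = EvenNorm ∨ P = TwicePrimary ∨
      P = NotOneModTwo → Filter.Tendsto (proportion P P FiniteAndTrivial) Filter.atTop (nhds c)) ∧
    Filter.Tendsto (proportion (K := K) NotOneModTwo Squarefree FiniteAndTrivial) Filter.atTop
      (nhds (2 / 3 * c)) ∧
    Filter.Tendsto (proportion (K := K) EvenNorm EvenNorm BothSigns) Filter.atTop
      (nhds (1 / 2 * c)) ∧
    Filter.Tendsto (proportion (K := K) NotOneModTwo Squarefree BothSigns) Filter.atTop
      (nhds (1 / 2 * c)) ∧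
    (0.4194 : ℝ) ≤ c := by
  obtain ⟨e, he⟩ := Pool.Agent.D0H10.Q4.Rng.exists_e K
  obtain ⟨h1, h2, h3, h4, h5, h6⟩ := Pool.Agent.D0H43.Q4.P.finalR Pool.Agent.D0H43.Q4.P.all6
    Pool.Agent.D0H10.Q4.sqfK K
  obtain ⟨-, j1, -, -, -, j3, -⟩ := Pool.Agent.D0H43.JQ.joint K
  have k2 := (Pool.Agent.D0H43.Q4.P.all6.mono (S' := Pool.Agent.D0H43.Q4.P.S4) (by decide)).lim
    ⟨(1, 0), by decide⟩ e he Pool.Agent.D0H43.Q4.P.NotOne (Pool.Agent.D0H43.Q4.P.notOneK e)
  have ext : ∀ i : 𝓞 K, i ^ 2 = -1 → ∀ D : 𝓞 K, Linked i D → FiniteAndTrivial D →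
      Pool.Agent.D0H43.MQ.Pk D (ExtendedDivisor i D) := by
    intro i hi D hD hT
    refine (Pool.Agent.D0H43.MQ.pkN4 Pool.Agent.D0H10.Q4.bd hi hD hT).mono fun t ht => ?_
    obtain ⟨t', ht', h⟩ := ht
    exact ⟨t', ht'.1, ht'.2, h⟩
  refine ⟨h1, fun D hD hT => ?_, fun D hD hT => ?_, fun D hD hT => ⟨hT, ?_⟩, fun i hi D hD hT => ?_,
    ?_, h6, j1, j3, Pool.Agent.D0H10.Q4.Num.c2_ge⟩
  · rcases hD with hD | hD
    · exact over_of (Pool.Agent.D0H43.MQ.pkN1 Pool.Agent.D0H10.Q4.bd Pool.Agent.D0H43.Q4.P.bo hD hT)
    · have hi : (e H385.im1) ^ 2 = -1 := by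
        rw [← map_pow, show (H385.im1 : H385.ZI) ^ 2 = -1 by decide, map_neg, map_one]
      exact over_of ((ext _ hi D (Or.inl hD) hT).mono fun t ht => ⟨t, ht, Or.inl rfl⟩)
  · exact over_of (Pool.Agent.D0H43.MQ.pkN2 Pool.Agent.D0H10.Q4.bd Pool.Agent.D0H43.Q4.P.bo hD hT.1
      hT.2)
  · exact Pool.Agent.D0H43.MQ.resN3 hD hT
  · exact over_of (ext i hi D hD hT)
  · rintro P (rfl | rfl | rfl | rfl | rfl)
    · exact h2
    · exact h3
    · exact h4
    · exact h5
    · exact k2

end Pool.Agent.Results.MP_ae0bd0_nt.QuarticTwistsOverExtensions
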